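import Pool.Agent.U442.Gro.Cnt

/-!
The exceptional members of a family of polynomials over a number field: the splitting fields whose
Galois closures over `ℚ` are unramified outside of a finite set of primes.
-/

set_option autoImplicit false
set_option linter.unusedSectionVars false

namespace Pool.Agent.U442.Gro

open Polynomial IntermediateField

variable {L : Type} [Field L] [NumberField L]

/-- the splitting field as an extension of `ℚ` -/
noncomputable def Kf (f : L[X]) : IntermediateField ℚ (AlgebraicClosure L) :=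
  (adjoin L (f.rootSet (AlgebraicClosure L))).restrictScalars ℚ

theorem mem_Kf {f : L[X]} {x : AlgebraicClosure L} :
    x ∈ Kf f ↔ x ∈ adjoin L (f.rootSet (AlgebraicClosure L)) := Iff.rfl

theorem Kf_fin {f : L[X]} (hf : f.Separable) :
    NumberField (Kf f) ∧ Module.finrank ℚ (Kf f) ≤ Module.finrank ℚ L * f.natDegree.factorial := by
  obtain ⟨h1, h2⟩ := finrank_roots f hf (IsAlgClosed.splits (f.map (algebraMap L (AlgebraicClosure L))))
  have h3 : FiniteDimensional ℚ (adjoin L (f.rootSet (AlgebraicClosure L))) :=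
    Module.Finite.trans L _
  have h4 : Module.finrank ℚ L * Module.finrank L (adjoin L (f.rootSet (AlgebraicClosure L))) =
      Module.finrank ℚ (adjoin L (f.rootSet (AlgebraicClosure L))) :=
    Module.finrank_mul_finrank ℚ L _
  have h5 : FiniteDimensional ℚ (Kf f) := h3
  refine ⟨@NumberField.mk _ _ inferInstance h5, ?_⟩
  have h6 : Module.finrank ℚ (Kf f) =
    Module.finrank ℚ (adjoin L (f.rootSet (AlgebraicClosure L))) := rfl
  rw [h6, ← h4]
  exact Nat.mul_le_mul_left _ h2

theorem fix_Kf {f : L[X]} {s : AlgebraicClosure L ≃ₐ[L] AlgebraicClosure L}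
    (hs : ∀ x ∈ f.rootSet (AlgebraicClosure L), s x = x) {x : AlgebraicClosure L} (hx : x ∈ Kf f) :
    s x = x := by
  have h1 : adjoin L (f.rootSet (AlgebraicClosure L)) ≤ fixedField (Subgroup.zpowers s) := by
    rw [adjoin_le_iff]
    intro y hy
    refine (mem_fixedField_iff _ _).2 fun g hg => ?_
    have h2 : Subgroup.zpowers s ≤
        MulAction.stabilizer (AlgebraicClosure L ≃ₐ[L] AlgebraicClosure L) y := by
      rw [Subgroup.zpowers_le]
      exact hs y hy
    exact h2 hg
  exact (mem_fixedField_iff _ _).1 (h1 (mem_Kf.1 hx)) s (Subgroup.mem_zpowers s)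

theorem Kf_le {f : L[X]} {E : IntermediateField ℚ (AlgebraicClosure L)}
    (hL : ∀ x : L, algebraMap L (AlgebraicClosure L) x ∈ E)
    (h : ∀ x ∈ f.rootSet (AlgebraicClosure L), x ∈ E) : Kf f ≤ E := by
  let E' : IntermediateField L (AlgebraicClosure L) := { E.toSubfield with algebraMap_mem' := hL }
  have h1 : adjoin L (f.rootSet (AlgebraicClosure L)) ≤ E' := by
    rw [adjoin_le_iff]
    exact h
  exact h1

/-- The exceptional polynomials. -/
def IsExc (S : Finset ℕ) (f : L[X]) : Prop :=
  ∃ (E : IntermediateField ℚ (AlgebraicClosure L)) (_ : NumberField E), Normal ℚ E ∧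
    (∀ x : L, algebraMap L (AlgebraicClosure L) x ∈ E) ∧ UnramQ S E ∧ Kf f ≤ E

theorem not_exc {S : Finset ℕ} {f : L[X]} (hf : f.Separable) (M : Type) [Field M] [NumberField M]
    [Algebra L M] [IsSplittingField L M f] {q : ℕ} (hq : q.Prime) (hqS : q ∉ S)
    (hd : (q : ℤ) ∣ NumberField.discr M) : ¬ IsExc S f := by
  rintro ⟨E, hE, h1, h2, h3, h4⟩
  have hK := (Kf_fin hf).1
  have h5 : IsSplittingField L (adjoin L (f.rootSet (AlgebraicClosure L))) f :=
    adjoin_rootSet_isSplittingField (IsAlgClosed.splits _)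
  let e : M ≃ₐ[L] adjoin L (f.rootSet (AlgebraicClosure L)) :=
    (IsSplittingField.algEquiv M f).trans (IsSplittingField.algEquiv _ f).symm
  have hK' : NumberField (adjoin L (f.rootSet (AlgebraicClosure L))) := hK
  have h6 : NumberField.discr M = NumberField.discr (adjoin L (f.rootSet (AlgebraicClosure L))) :=
    NumberField.discr_eq_discr_of_ringEquiv M e.toRingEquiv
  have h7 : NumberField.discr (Kf f) ∣ NumberField.discr E := by
    let _ := (inclusion h4).toRingHom.toAlgebra
    exact NumberField.discr_dvd_discr (Kf f) E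
  apply hqS
  apply h3 q hq
  refine dvd_trans ?_ h7
  rw [h6] at hd
  exact hd

/-- The number of the exceptional members of bounded degree. -/
theorem count_exc {S : Finset ℕ} (hS : ∀ q ∈ S, q.Prime) {I : Type} (f : I → L[X])
    (hsep : ∀ i, (f i).Separable)
    (hd : ∀ i j, i ≠ j → ∃ s : AlgebraicClosure L ≃ₐ[L] AlgebraicClosure L,
      (∀ x ∈ (f j).rootSet (AlgebraicClosure L), s x = x) ∧
      ∃ x ∈ (f i).rootSet (AlgebraicClosure L), s x ≠ x) (n m : ℕ)
    (hm : m = Module.finrank ℚ L * n.factorial) :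
    {i | IsExc S (f i) ∧ (f i).natDegree ≤ n}.Finite ∧
    {i | IsExc S (f i) ∧ (f i).natDegree ≤ n}.ncard ≤ (8 * bD S m) ^ (40 * m ^ 3) := by
  have hm1 : 1 ≤ m := by
    rw [hm]
    exact Nat.mul_pos Module.finrank_pos n.factorial_pos
  let J : Type := {i // IsExc S (f i) ∧ (f i).natDegree ≤ n}
  have hinj : Function.Injective fun i : J => Kf (f i.1) := by
    intro i j hij
    by_contra hne
    obtain ⟨s, hs, x, hx, hsx⟩ := hd i.1 j.1 fun h => hne (Subtype.ext h)
    apply hsx
    have h3 : x ∈ Kf (f i.1) := mem_Kf.2 (subset_adjoin _ _ hx)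
    have hij' : Kf (f i.1) = Kf (f j.1) := hij
    rw [hij'] at h3
    exact fix_Kf hs h3
  have hdeg : ∀ i : J, Module.finrank ℚ (Kf (f i.1)) ≤ m := by
    intro i
    refine (Kf_fin (hsep i.1)).2.trans ?_
    rw [hm]
    exact Nat.mul_le_mul_left _ (Nat.factorial_le i.2.2)
  have hex : ∀ i : J, ∃ (E : IntermediateField ℚ (AlgebraicClosure L)) (_ : NumberField E),
      Normal ℚ E ∧ Kf (f i.1) ≤ E ∧ UnramQ S E := by
    intro i
    obtain ⟨E, hE, e1, e2, e3, e4⟩ := i.2.1
    exact ⟨E, hE, e1, e4, e3⟩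
  obtain ⟨h1, h2⟩ := count (L := L) hS m hm1 (fun i : J => Kf (f i.1))
    (fun i => (Kf_fin (hsep i.1)).1) hinj hdeg hex
  have h1' : {i | IsExc S (f i) ∧ (f i).natDegree ≤ n}.Finite := h1
  refine ⟨h1', ?_⟩
  rw [← Nat.card_coe_set_eq]
  exact h2

end Pool.Agent.U442.Gro
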