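import Pool.Agent.U442.Gro.Form

/-!
Common rational forms from the description of the Tate classes by products.
-/

set_option autoImplicit false

namespace Pool.Agent.U442.Gro

open Polynomial NumberField IsDedekindDomain
open Pool.Agent.U442.Htj.EP Pool.Agent.N166.CZ Pool.Agent.H204R3.GP Pool.Agent.H204R3.CM

theorem PP_tate {k V M Γ : Type} [Field k] [AddCommGroup V] [Module k V] [AddCommGroup M]
    [Module k M] [Group Γ] {n m : ℕ} {ρ : Representation k Γ V} {χ : Γ →* k}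
    {σ : Representation k Γ M} {j : ℤ} {B : Fin m → (Fin n → V) [⋀^Fin 2]→ₗ[k] k} {z : M}
    (hB : ∀ l, IsTateClass ρ χ 1 (B l)) (hz : IsTateVector χ σ (j - m) z) :
    IsTateMap ρ χ σ j (PP B z) := by
  choose Δ hΔ h using hB
  obtain ⟨Δ', hΔ', h'⟩ := hz
  have hfin : (⨅ l, Δ l).FiniteIndex := Subgroup.finiteIndex_iInf hΔ
  refine ⟨(⨅ l, Δ l) ⊓ Δ', inferInstance, fun s hs v => ?_⟩
  have hs1 : ∀ l, s ∈ Δ l := Subgroup.mem_iInf.1 (Subgroup.mem_inf.1 hs).1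
  have hs2 : s ∈ Δ' := (Subgroup.mem_inf.1 hs).2
  have hχ : χ s ≠ 0 := by
    intro h0
    have h1 : χ s * χ s⁻¹ = 1 := by rw [← map_mul, mul_inv_cancel, map_one]
    rw [h0, zero_mul] at h1
    exact zero_ne_one h1
  have hz1 : χ s ^ j • σ s z = χ s ^ m • z := by
    have h1 := h' s hs2
    have h2 : χ s ^ m • χ s ^ (j - (m : ℤ)) • σ s z = χ s ^ m • z := by rw [h1]
    rw [smul_smul, ← zpow_natCast, ← zpow_add₀ hχ] at h2
    rw [show (m : ℤ) + (j - (m : ℤ)) = j by ring, zpow_natCast] at h2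
    exact h2
  rw [PP_apply, PP_apply, map_smul, smul_comm, hz1, smul_smul, Finset.sum_mul]
  congr 1
  refine Finset.sum_congr rfl fun τ _ => ?_
  rw [mul_assoc]
  congr 1
  have h3 : ∀ l, B l ![(fun i => ρ s (v (τ (l, 0)) i)), (fun i => ρ s (v (τ (l, 1)) i))] =
      χ s * B l ![v (τ (l, 0)), v (τ (l, 1))] := by
    intro l
    have h4 := h l s (hs1 l) ![v (τ (l, 0)), v (τ (l, 1))]
    rw [pow_one] at h4
    rw [← h4]
    congr 1
    funext t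
    fin_cases t <;> rfl
  rw [Finset.prod_congr rfl fun l _ => h3 l, Finset.prod_mul_distrib, Finset.prod_const,
    Finset.card_univ, Fintype.card_fin, mul_comm]

section

variable {L : Type} [Field L] [NumberField L] {S : Set (HeightOneSpectrum (𝓞 L))}
  {P Q : HeightOneSpectrum (𝓞 L) → ℚ[X]} {V₀ M₀ : Type} [AddCommGroup V₀] [Module ℚ V₀]
  [AddCommGroup M₀] [Module ℚ M₀]

theorem common_product {D : ∀ (ℓ : ℕ) [Fact ℓ.Prime], Realization S P Q V₀ M₀ ℓ} {N n m : ℕ} {j : ℤ}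
    {B₀ : Fin m → (Fin n → V₀) [⋀^Fin 2]→ₗ[ℚ] ℚ} {z₀ : M₀} (hB : ∀ l, CommonTateForm D N (B₀ l))
    (hz : CommonTateVector D N (j - m) z₀) : CommonTateMap D N j (PP B₀ z₀) := by
  intro ℓ _ hℓ
  choose B hB1 hB2 using fun l => hB l ℓ hℓ
  exact ⟨PP B ((D ℓ).e z₀), PP_extends (Rat.castHom ℚ_[ℓ]) hB1 z₀, PP_tate hB2 (hz ℓ hℓ)⟩

theorem formPowers {D : ∀ (ℓ : ℕ) [Fact ℓ.Prime], Realization S P Q V₀ M₀ ℓ} {N : ℕ}
    (h : ∀ (ℓ : ℕ) [Fact ℓ.Prime], ProductsWith (D ℓ).r (D ℓ).χ (D ℓ).s)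
    (h2 : FormDegreeTwo D N) (hM : FormMotive D N) : FormPowers D N := by
  intro n m j ℓ _ hℓ
  obtain ⟨h3, h4⟩ := h ℓ n m j
  refine ⟨fun f hf => ?_, h4⟩
  refine Submodule.span_le.2 ?_ (h3 f hf)
  rintro g ⟨B, z, hB, hz, hg⟩
  rw [PP_eq hg]
  refine PP_mem (X := Extensions (D ℓ).c (Rat.castHom ℚ_[ℓ]).toAddMonoidHom
      {β₀ | CommonTateForm D N β₀})
    (Y := {y | ∃ z₀ ∈ {z₀ | CommonTateVector D N (j - m) z₀}, (D ℓ).e z₀ = y}) ?_ B z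
    (fun l => h2 n ℓ hℓ (B l) (hB l)) (hM (j - m) ℓ hℓ z hz)
  intro B z hB hz
  choose B₀ hB1 hB2 using hB
  obtain ⟨z₀, hz1, rfl⟩ := hz
  exact Submodule.subset_span ⟨PP B₀ z₀, common_product hB1 hz1,
    PP_extends (Rat.castHom ℚ_[ℓ]) hB2 z₀⟩

end

theorem commonForms_of_everyPrime {L : Type} [Field L] [NumberField L] {ι : Type} {f : ι → L[X]}
    {d : ℕ} {ν : AbsoluteGaloisGroup L →* Matrix (Fin d) (Fin d) ℚ_[2]} (h : EveryPrime f ν) :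
    CommonForms f ν := by
  obtain ⟨h1, h⟩ := h
  refine ⟨h1, fun S m w P Q hS hPQ hJ hQ V₀ M₀ _ _ _ _ D N h2 hM => ?_⟩
  exact formPowers (fun ℓ _ => h S m w P Q hS hPQ hJ hQ ℓ (D ℓ).V (D ℓ).M (D ℓ).r (D ℓ).χ (D ℓ).s
    (D ℓ).tate (D ℓ).frob) h2 hM

end Pool.Agent.U442.Gro
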