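import Pool.Agent.U442.Gro.Fld
import Pool.Agent.N890.US.HERM
import Pool.Agent.N890.US.DISC

/-!
The number of the subfields of bounded degree of the algebraic closure of a number field whose
Galois closures over `ℚ` are unramified outside of a finite set of primes.
-/

set_option autoImplicit false

namespace Pool.Agent.U442.Gro

open Polynomial IntermediateField

variable {L : Type} [Field L] [NumberField L]

/-- The prime divisors of the discriminant are in `S`. -/
def UnramQ (S : Finset ℕ) (E : Type) [Field E] [NumberField E] : Prop :=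
  ∀ q : ℕ, q.Prime → (q : ℤ) ∣ NumberField.discr E → q ∈ S

/-- the bound for the discriminants -/
def bD (S : Finset ℕ) (m : ℕ) : ℕ := ∏ q ∈ S, (q * m.factorial) ^ m.factorial

theorem discr_le {S : Finset ℕ} (hS : ∀ q ∈ S, q.Prime) {Ω : Type} [Field Ω] [CharZero Ω]
    [IsAlgClosed Ω] (F E : IntermediateField ℚ Ω) [NumberField F] [NumberField E]
    (hn : Normal ℚ E) (hFE : F ≤ E) (hE : UnramQ S E) {m : ℕ} (hm : Module.finrank ℚ F ≤ m) :
    (NumberField.discr F).natAbs ≤ bD S m := by
  obtain ⟨F', h1, h2, h3, h4, h5⟩ := exists_closure F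
  have hF' : NumberField F' := @NumberField.mk _ _ inferInstance h1
  have h6 : F' ≤ E := h5 E hn hFE
  have d1 : NumberField.discr F ∣ NumberField.discr F' := by
    let _ := (inclusion h4).toRingHom.toAlgebra
    exact NumberField.discr_dvd_discr F F'
  have d2 : NumberField.discr F' ∣ NumberField.discr E := by
    let _ := (inclusion h6).toRingHom.toAlgebra
    exact NumberField.discr_dvd_discr F' E
  have h2' : IsGalois ℚ F' := by
    convert h2
    exact Subsingleton.elim _ _
  have h7 := Pool.Agent.N890.US.DISC.disc_bound F' S hS (fun q hq hqS hd =>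
    hqS (hE q hq (hd.trans d2)))
  have h8 : (NumberField.discr F).natAbs ≤ (NumberField.discr F').natAbs :=
    Nat.le_of_dvd (Int.natAbs_pos.2 (NumberField.discr_ne_zero _)) (Int.natAbs_dvd_natAbs.2 d1)
  refine (h8.trans h7).trans ?_
  unfold bD
  refine Finset.prod_le_prod' fun q hq => ?_
  have h9 : Module.finrank ℚ F' ≤ m.factorial := h3.trans (Nat.factorial_le hm)
  have h10 : 1 ≤ q * m.factorial := Nat.mul_pos (hS q hq).pos m.factorial_pos
  exact (Nat.pow_le_pow_left (Nat.mul_le_mul_left q h9) _).trans (Nat.pow_le_pow_right h10 h9)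

/-- The finite set of the fields. -/
theorem count {S : Finset ℕ} (hS : ∀ q ∈ S, q.Prime) (m : ℕ) (hm : 1 ≤ m) {I : Type}
    (F : I → IntermediateField ℚ (AlgebraicClosure L)) (hF : ∀ i, NumberField (F i))
    (hinj : Function.Injective F) (hd : ∀ i, Module.finrank ℚ (F i) ≤ m)
    (hE : ∀ i, ∃ (E : IntermediateField ℚ (AlgebraicClosure L)) (_ : NumberField E),
      Normal ℚ E ∧ F i ≤ E ∧ UnramQ S E) :
    Finite I ∧ Nat.card I ≤ (8 * bD S m) ^ (40 * m ^ 3) := by
  have hQ : IsAlgClosure ℚ (AlgebraicClosure L) := by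
    have : Algebra.IsAlgebraic ℚ (AlgebraicClosure L) := Algebra.IsAlgebraic.trans ℚ L _
    exact ⟨inferInstance, this⟩
  have hQ2 : IsAlgClosure ℚ (AlgebraicClosure ℚ) := by
    have h0 : Algebra.IsAlgebraic ℚ (AlgebraicClosure ℚ) := by
      have h00 := AlgebraicClosure.isAlgebraic ℚ
      have e0 : (DivisionRing.toRatAlgebra : Algebra ℚ (AlgebraicClosure ℚ)) =
        AlgebraicClosure.instAlgebra ℚ := Subsingleton.elim _ _
      rw [e0]
      exact h00
    exact ⟨inferInstance, h0⟩
  let τ : AlgebraicClosure L ≃ₐ[ℚ] AlgebraicClosure ℚ := IsAlgClosure.equiv ℚ _ _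
  have hbD : 1 ≤ bD S m := by
    refine Nat.one_le_iff_ne_zero.2 (Finset.prod_ne_zero_iff.2 fun q hq => ?_)
    exact pow_ne_zero _ (Nat.mul_pos (hS q hq).pos m.factorial_pos).ne'
  obtain ⟨h1, h2⟩ := Pool.Agent.N890.US.HERM.t_HERM m (bD S m) hm hbD
  let φ : I → IntermediateField ℚ (AlgebraicClosure ℚ) := fun i => (F i).map τ.toAlgHom
  have hφ : Function.Injective φ := fun i j h => hinj (map_injective τ.toAlgHom h)
  have hmem : ∀ i, φ i ∈ {F : IntermediateField ℚ (AlgebraicClosure ℚ) |
      ∃ _ : FiniteDimensional ℚ F, Module.finrank ℚ F ≤ m ∧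
        (Pool.Agent.N890.US.dF F).natAbs ≤ bD S m} := by
    intro i
    have hFi := hF i
    let e : F i ≃ₐ[ℚ] φ i := (F i).equivMap τ.toAlgHom
    have hfd : FiniteDimensional ℚ (φ i) := Module.Finite.equiv e.toLinearEquiv
    refine ⟨hfd, ?_, ?_⟩
    · rw [← e.toLinearEquiv.finrank_eq]
      exact hd i
    · obtain ⟨E, hE1, hE2, hE3, hE4⟩ := hE i
      have h3 := discr_le hS (F i) E hE2 hE3 hE4 (hd i)
      have hnf : NumberField (φ i) := @NumberField.mk _ _ inferInstance inferInstance
      have h4 : NumberField.discr (F i) = NumberField.discr (φ i) :=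
        NumberField.discr_eq_discr_of_algEquiv _ e
      rw [h4] at h3
      exact h3
  have hfin : Finite I := by
    have := h1.to_subtype
    exact Finite.of_injective (fun i => (⟨φ i, hmem i⟩ : {F : IntermediateField ℚ
      (AlgebraicClosure ℚ) | ∃ _ : FiniteDimensional ℚ F, Module.finrank ℚ F ≤ m ∧
        (Pool.Agent.N890.US.dF F).natAbs ≤ bD S m})) fun i j h => hφ (congrArg Subtype.val h)
  refine ⟨hfin, ?_⟩
  rw [← Set.ncard_univ, ← Set.ncard_image_of_injective _ hφ]
  refine le_trans (Set.ncard_le_ncard ?_ h1) h2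
  rintro _ ⟨i, -, rfl⟩
  exact hmem i

end Pool.Agent.U442.Gro
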