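import Mathlib

/-!
Fields generated by roots: bounds for the degrees.
-/

set_option autoImplicit false

namespace Pool.Agent.U442.Gro

open Polynomial IntermediateField

/-- The field generated by the roots of a separable polynomial has degree at most `n!`. -/
theorem finrank_roots {k Ω : Type} [Field k] [Field Ω] [Algebra k Ω] (p : k[X])
    (hp : p.Separable) (hs : (p.map (algebraMap k Ω)).Splits) :
    FiniteDimensional k (adjoin k (p.rootSet Ω)) ∧
      Module.finrank k (adjoin k (p.rootSet Ω)) ≤ p.natDegree.factorial := by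
  classical
  have : IsSplittingField k (adjoin k (p.rootSet Ω)) p := adjoin_rootSet_isSplittingField hs
  have e : adjoin k (p.rootSet Ω) ≃ₐ[k] p.SplittingField := IsSplittingField.algEquiv _ p
  have hfd : FiniteDimensional k (adjoin k (p.rootSet Ω)) :=
    Module.Finite.equiv e.symm.toLinearEquiv
  refine ⟨hfd, ?_⟩
  rw [e.toLinearEquiv.finrank_eq, ← Gal.card_of_separable hp]
  have : Fact ((p.map (algebraMap k Ω)).Splits) := ⟨hs⟩
  have h1 : Nat.card p.Gal ≤ Nat.card (Equiv.Perm (p.rootSet Ω)) :=
    Nat.card_le_card_of_injective _ (Gal.galActionHom_injective p Ω)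
  refine h1.trans ?_
  rw [Nat.card_eq_fintype_card, Fintype.card_perm, card_rootSet_eq_natDegree hp hs]

/-- the Galois closure of a number field in a field generated by roots, inside of every normal
extension which contains it, of bounded degree -/
theorem exists_closure {k Ω : Type} [Field k] [CharZero k] [Field Ω] [Algebra k Ω] [IsAlgClosed Ω]
    (F : IntermediateField k Ω) [FiniteDimensional k F] :
    ∃ F' : IntermediateField k Ω, FiniteDimensional k F' ∧ IsGalois k F' ∧
      Module.finrank k F' ≤ (Module.finrank k F).factorial ∧ F ≤ F' ∧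
      ∀ E : IntermediateField k Ω, Normal k E → F ≤ E → F' ≤ E := by
  obtain ⟨α, hα⟩ := Field.exists_primitive_element k F
  let g : k[X] := minpoly k α
  have hint : IsIntegral k α := Algebra.IsIntegral.isIntegral α
  have hsep : g.Separable := (minpoly.irreducible hint).separable
  have hspl : (g.map (algebraMap k Ω)).Splits := IsAlgClosed.splits _
  have hdeg : g.natDegree = Module.finrank k F := by
    rw [← adjoin.finrank hint, hα, IntermediateField.finrank_top']
  obtain ⟨h1, h2⟩ := finrank_roots g hsep hspl
  have hsf : IsSplittingField k (adjoin k (g.rootSet Ω)) g := adjoin_rootSet_isSplittingField hspl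
  refine ⟨adjoin k (g.rootSet Ω), h1, IsGalois.of_separable_splitting_field hsep, by rwa [hdeg] at h2,
    ?_, ?_⟩
  · intro x hx
    have h3 : (⟨x, hx⟩ : F) ∈ k⟮α⟯ := by rw [hα]; trivial
    have h4 : x ∈ k⟮(α : Ω)⟯ := by
      have h5 : (k⟮α⟯).map F.val = k⟮(α : Ω)⟯ := by
        rw [adjoin_map, Set.image_singleton]
        rfl
      rw [← h5]
      exact ⟨⟨x, hx⟩, h3, rfl⟩
    have h6 : k⟮(α : Ω)⟯ ≤ adjoin k (g.rootSet Ω) := by
      rw [adjoin_simple_le_iff]
      apply subset_adjoin
      rw [mem_rootSet]
      refine ⟨minpoly.ne_zero hint, ?_⟩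
      have h7 : (minpoly k α) = minpoly k (α : Ω) := (minpoly.algebraMap_eq
        (FaithfulSMul.algebraMap_injective F Ω) α).symm
      show aeval (α : Ω) (minpoly k α) = 0
      rw [h7]
      exact minpoly.aeval _ _
    exact h6 h4
  · intro E hE hFE
    rw [adjoin_le_iff]
    intro x hx
    rw [mem_rootSet] at hx
    have h7 : (minpoly k α) = minpoly k (⟨(α : Ω), hFE α.2⟩ : E) := by
      rw [← minpoly.algebraMap_eq (FaithfulSMul.algebraMap_injective F Ω) α,
        ← minpoly.algebraMap_eq (FaithfulSMul.algebraMap_injective E Ω)]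
      rfl
    have h8 : ((minpoly k (⟨(α : Ω), hFE α.2⟩ : E)).map (algebraMap k E)).Splits :=
      hE.splits _
    have h9 : g = minpoly k (⟨(α : Ω), hFE α.2⟩ : E) := h7
    rw [← h9] at h8
    have h10 : x ∈ (algebraMap E Ω).range := by
      refine h8.mem_range_of_isRoot (Polynomial.map_ne_zero hx.1) ?_
      rw [IsRoot, eval_map, ← aeval_def, aeval_map_algebraMap]
      exact hx.2
    obtain ⟨y, hy⟩ := h10
    rw [← hy]
    exact y.2

end Pool.Agent.U442.Gro
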