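import Pool.Agent.U442.Htj.EPDefs

/-!
# Common rational forms of the Tate classes at all large prime numbers: definitions

`A` is an abelian variety and `Z` a pure motive over a number field `L`. `V₀ = H_1(A, ℚ)` and `M₀` (the
Betti realization of `Z`) are rational vector spaces, with comparison maps to the rational Tate modules
`V_ℓ(A)` and the realizations `M_ℓ` over `ℚ_ℓ`, for all prime numbers `ℓ`. By the Kunneth formula the
cohomology of `A ^ n ⊗ Z` is the sum of the spaces of alternating maps from `V_ℓ ^ n` to `M_ℓ`.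
-/

set_option autoImplicit false

namespace Pool.Agent.U442.Gro

open Polynomial NumberField IsDedekindDomain
open Pool.Agent.U442.Htj.EP Pool.Agent.N166.CZ Pool.Agent.H204R3.GP

/-- `c` is a comparison map: some basis of the rational space is mapped to a basis over `k`. -/
def IsComparison (k : Type) [Field k] {V₀ V : Type} [AddCommGroup V₀] [Module ℚ V₀] [AddCommGroup V]
    [Module k V] (c : V₀ →+ V) : Prop :=
  ∃ (κ : Type) (b₀ : Module.Basis κ ℚ V₀) (b : Module.Basis κ k V), ∀ i, c (b₀ i) = b i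

section

variable {k V M V₀ M₀ Γ : Type} [Field k] [AddCommGroup V] [Module k V] [AddCommGroup M]
  [Module k M] [AddCommGroup V₀] [Module ℚ V₀] [AddCommGroup M₀] [Module ℚ M₀] [Group Γ]

/-- The alternating map `φ` extends the rational alternating map `φ₀`. -/
def Extends (c : V₀ →+ V) (e : M₀ →+ M) {n : ℕ} {κ : Type} (φ₀ : (Fin n → V₀) [⋀^κ]→ₗ[ℚ] M₀)
    (φ : (Fin n → V) [⋀^κ]→ₗ[k] M) : Prop :=
  ∀ v : κ → Fin n → V₀, φ (fun j i => c (v j i)) = e (φ₀ v)

/-- The extension of the rational alternating form `β₀` of degree two on `V₀ ^ n` to `V ^ n` is a Tate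
class in `H^2(A ^ n)(1)`. -/
def TateForm (ρ : Representation k Γ V) (χ : Γ →* k) (i : ℚ →+* k) (c : V₀ →+ V) {n : ℕ}
    (β₀ : (Fin n → V₀) [⋀^Fin 2]→ₗ[ℚ] ℚ) : Prop :=
  ∃ β : (Fin n → V) [⋀^Fin 2]→ₗ[k] k, Extends c i.toAddMonoidHom β₀ β ∧ IsTateClass ρ χ 1 β

/-- The extension of the rational alternating map `φ₀` from `V₀ ^ n` to `M₀`, in the variables in `κ`, to
`V ^ n` is a Tate class in `H^κ(A ^ n) ⊗ M(j)`. -/
def TateMap (ρ : Representation k Γ V) (χ : Γ →* k) (σ : Representation k Γ M) (c : V₀ →+ V)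
    (e : M₀ →+ M) (j : ℤ) {n : ℕ} {κ : Type} (φ₀ : (Fin n → V₀) [⋀^κ]→ₗ[ℚ] M₀) : Prop :=
  ∃ φ : (Fin n → V) [⋀^κ]→ₗ[k] M, Extends c e φ₀ φ ∧ IsTateMap ρ χ σ j φ

/-- The extensions to `V ^ n` of the rational alternating maps in `T`. -/
def Extensions (c : V₀ →+ V) (e : M₀ →+ M) {n : ℕ} {κ : Type}
    (T : Set ((Fin n → V₀) [⋀^κ]→ₗ[ℚ] M₀)) : Set ((Fin n → V) [⋀^κ]→ₗ[k] M) :=
  {φ | ∃ φ₀ ∈ T, Extends c e φ₀ φ}

/-- All Tate classes in `H^2(A ^ n)(1)` are linear combinations over `k` of the extensions of the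
rational forms in `T`. -/
def FormsSpannedBy (ρ : Representation k Γ V) (χ : Γ →* k) (i : ℚ →+* k) (c : V₀ →+ V) {n : ℕ}
    (T : Set ((Fin n → V₀) [⋀^Fin 2]→ₗ[ℚ] ℚ)) : Prop :=
  ∀ B : (Fin n → V) [⋀^Fin 2]→ₗ[k] k, IsTateClass ρ χ 1 B →
    B ∈ Submodule.span k (Extensions c i.toAddMonoidHom T)

/-- All Tate classes in `M(j)` are linear combinations over `k` of the rational vectors in `T`. -/
def VectorsSpannedBy (χ : Γ →* k) (σ : Representation k Γ M) (e : M₀ →+ M) (j : ℤ) (T : Set M₀) :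
    Prop :=
  ∀ z : M, IsTateVector χ σ j z → z ∈ Submodule.span k {y | ∃ z₀ ∈ T, e z₀ = y}

/-- All Tate classes in `H^(2 m)(A ^ n) ⊗ M(j)` are linear combinations over `k` of the extensions of the
rational maps in `T`. -/
def MapsSpannedBy (ρ : Representation k Γ V) (χ : Γ →* k) (σ : Representation k Γ M) (c : V₀ →+ V)
    (e : M₀ →+ M) (j : ℤ) {n m : ℕ} (T : Set ((Fin n → V₀) [⋀^Fin m × Fin 2]→ₗ[ℚ] M₀)) : Prop :=
  ∀ f : (Fin n → V) [⋀^Fin m × Fin 2]→ₗ[k] M, IsTateMap ρ χ σ j f →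
    f ∈ Submodule.span k (Extensions c e T)

/-- All Tate classes in `H^(2 m + 1)(A ^ n) ⊗ M(j)` are zero. -/
def OddZero (ρ : Representation k Γ V) (χ : Γ →* k) (σ : Representation k Γ M) (j : ℤ) (n m : ℕ) :
    Prop :=
  ∀ f : (Fin n → V) [⋀^Fin (2 * m + 1)]→ₗ[k] M, IsTateMap ρ χ σ j f → f = 0

end

/-- The realizations at the prime number `ℓ` of an abelian variety with the Frobenius polynomials `P v`
and of a motive with the Frobenius polynomials `Q v`, `v` not in `S`, with the comparison maps from the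
rational spaces `V₀` and `M₀`. -/
structure Realization {L : Type} [Field L] [NumberField L] (S : Set (HeightOneSpectrum (𝓞 L)))
    (P Q : HeightOneSpectrum (𝓞 L) → ℚ[X]) (V₀ M₀ : Type) [AddCommGroup V₀] [Module ℚ V₀]
    [AddCommGroup M₀] [Module ℚ M₀] (ℓ : ℕ) [Fact ℓ.Prime] where
  /-- the rational Tate module -/
  V : Type
  /-- the realization of the motive -/
  M : Type
  [gV : AddCommGroup V]
  [mV : Module ℚ_[ℓ] V]
  [fV : FiniteDimensional ℚ_[ℓ] V]
  [gM : AddCommGroup M]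
  [mM : Module ℚ_[ℓ] M]
  [fM : FiniteDimensional ℚ_[ℓ] M]
  /-- the action of the Galois group on the Tate module -/
  r : Representation ℚ_[ℓ] (AbsoluteGaloisGroup L) V
  /-- the cyclotomic character -/
  χ : AbsoluteGaloisGroup L →* ℚ_[ℓ]
  /-- the action of the Galois group on the realization of the motive -/
  s : Representation ℚ_[ℓ] (AbsoluteGaloisGroup L) M
  /-- the comparison map of the Tate module -/
  c : V₀ →+ V
  /-- the comparison map of the motive -/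
  e : M₀ →+ M
  tate : IsTateModuleWith S P ℓ r χ
  frob : HasFrobenius S Q ℓ s
  hc : IsComparison ℚ_[ℓ] c
  he : IsComparison ℚ_[ℓ] e

attribute [instance] Realization.gV Realization.mV Realization.fV Realization.gM Realization.mM
  Realization.fM

section

variable {L : Type} [Field L] [NumberField L] {S : Set (HeightOneSpectrum (𝓞 L))}
  {P Q : HeightOneSpectrum (𝓞 L) → ℚ[X]} {V₀ M₀ : Type} [AddCommGroup V₀] [Module ℚ V₀]
  [AddCommGroup M₀] [Module ℚ M₀]

/-- A rational alternating form of degree two on `V₀ ^ n` whose extension to `V_ℓ ^ n` is a Tate class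
in `H^2(A ^ n)(1)`, for all `ℓ ≥ N`. -/
def CommonTateForm (D : ∀ (ℓ : ℕ) [Fact ℓ.Prime], Realization S P Q V₀ M₀ ℓ) (N : ℕ) {n : ℕ}
    (β₀ : (Fin n → V₀) [⋀^Fin 2]→ₗ[ℚ] ℚ) : Prop :=
  ∀ (ℓ : ℕ) [Fact ℓ.Prime], N ≤ ℓ → TateForm (D ℓ).r (D ℓ).χ (Rat.castHom ℚ_[ℓ]) (D ℓ).c β₀

/-- A vector in `M₀` which is a Tate class in `M_ℓ(j)` for all `ℓ ≥ N`. -/
def CommonTateVector (D : ∀ (ℓ : ℕ) [Fact ℓ.Prime], Realization S P Q V₀ M₀ ℓ) (N : ℕ) (j : ℤ)
    (z₀ : M₀) : Prop :=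
  ∀ (ℓ : ℕ) [Fact ℓ.Prime], N ≤ ℓ → IsTateVector (D ℓ).χ (D ℓ).s j ((D ℓ).e z₀)

/-- A rational alternating map from `V₀ ^ n` to `M₀`, in the variables in `κ`, whose extension to an
alternating map from `V_ℓ ^ n` to `M_ℓ` is a Tate class in `H^κ(A ^ n) ⊗ M_ℓ(j)` for all `ℓ ≥ N`. -/
def CommonTateMap (D : ∀ (ℓ : ℕ) [Fact ℓ.Prime], Realization S P Q V₀ M₀ ℓ) (N : ℕ) (j : ℤ) {n : ℕ}
    {κ : Type} (φ₀ : (Fin n → V₀) [⋀^κ]→ₗ[ℚ] M₀) : Prop :=
  ∀ (ℓ : ℕ) [Fact ℓ.Prime], N ≤ ℓ → TateMap (D ℓ).r (D ℓ).χ (D ℓ).s (D ℓ).c (D ℓ).e j φ₀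

/-- **The Tate classes of degree two on the powers of `A` have a common rational form from `N` on**
(this is so for all abelian varieties and all `N`, by the theorem of Faltings on homomorphisms): for all
`ℓ ≥ N` they are linear combinations over `ℚ_ℓ` of the rational forms which are Tate classes for all
prime numbers `≥ N`. -/
def FormDegreeTwo (D : ∀ (ℓ : ℕ) [Fact ℓ.Prime], Realization S P Q V₀ M₀ ℓ) (N : ℕ) : Prop :=
  ∀ (n ℓ : ℕ) [Fact ℓ.Prime], N ≤ ℓ →
    FormsSpannedBy (D ℓ).r (D ℓ).χ (Rat.castHom ℚ_[ℓ]) (D ℓ).c (n := n) {β₀ | CommonTateForm D N β₀}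

/-- **The Tate classes of the motive have a common rational form from `N` on.** -/
def FormMotive (D : ∀ (ℓ : ℕ) [Fact ℓ.Prime], Realization S P Q V₀ M₀ ℓ) (N : ℕ) : Prop :=
  ∀ (j : ℤ) (ℓ : ℕ) [Fact ℓ.Prime], N ≤ ℓ →
    VectorsSpannedBy (D ℓ).χ (D ℓ).s (D ℓ).e j {z₀ | CommonTateVector D N j z₀}

/-- **The Tate classes on all powers of `A` with values in the motive have a common rational form from
`N` on**: for `ℓ ≥ N` they are zero in odd degrees, and in even degrees they are linear combinations over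
`ℚ_ℓ` of rational alternating maps which are Tate classes for all prime numbers `≥ N`. -/
def FormPowers (D : ∀ (ℓ : ℕ) [Fact ℓ.Prime], Realization S P Q V₀ M₀ ℓ) (N : ℕ) : Prop :=
  ∀ (n m : ℕ) (j : ℤ) (ℓ : ℕ) [Fact ℓ.Prime], N ≤ ℓ →
    MapsSpannedBy (D ℓ).r (D ℓ).χ (D ℓ).s (D ℓ).c (D ℓ).e j (n := n) (m := m)
      {φ₀ | CommonTateMap D N j φ₀} ∧
    OddZero (D ℓ).r (D ℓ).χ (D ℓ).s j n m

end

/-- **Common rational forms** on all products of powers of the Jacobians of the curves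
`y ^ 2 = f i (x)` with any pure motive whose 2-adic realization is given by the matrices `ν g`: if the
Tate classes of the motive have a common rational form from `N` on, then this is so for the Tate classes
on all powers of the product `A` of the Jacobians with values in the motive, with the same `N`. -/
def CommonForms {L : Type} [Field L] [NumberField L] {ι : Type} (f : ι → L[X]) {d : ℕ}
    (ν : AbsoluteGaloisGroup L →* Matrix (Fin d) (Fin d) ℚ_[2]) : Prop :=
  ∃ _ : ∀ i, Pool.Agent.N171.HypP (f i), ∀ (S : Set (HeightOneSpectrum (𝓞 L))) (m : ℕ) (w : ℤ)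
    (P Q : HeightOneSpectrum (𝓞 L) → ℚ[X]),
    S.Finite → (∀ v ∉ S, IsWeilPoly v 1 m (P v) ∧ IsWeilPoly v w m (Q v)) →
    JacobianFrobenius f S P → HasFrobenius S Q 2 (matRep ν) →
    ∀ (V₀ M₀ : Type) [AddCommGroup V₀] [Module ℚ V₀] [AddCommGroup M₀] [Module ℚ M₀]
      (D : ∀ (ℓ : ℕ) [Fact ℓ.Prime], Realization S P Q V₀ M₀ ℓ) (N : ℕ),
      FormDegreeTwo D N → FormMotive D N → FormPowers D N

end Pool.Agent.U442.Gro
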