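import Pool.Agent.N166.CZ.Stm
import Pool.Agent.U442.Gro.FormDefs
import Pool.Agent.H204R3.CM.Alt

/-!
Rational forms of the products of Tate classes.
-/

set_option autoImplicit false

namespace Pool.Agent.U442.Gro

open Pool.Agent.N166.CZ Pool.Agent.H204R3.GP Pool.Agent.H204R3.CM

section prod

variable {k V M : Type} [Field k] [AddCommGroup V] [Module k V] [AddCommGroup M] [Module k M]
  {n m : ℕ}

/-- the product of the alternating forms `B l` and the vector `z` -/
noncomputable def PP (B : Fin m → (Fin n → V) [⋀^Fin 2]→ₗ[k] k) (z : M) :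
    (Fin n → V) [⋀^Fin m × Fin 2]→ₗ[k] M :=
  (LinearMap.toSpanSingleton k M z).compAlternatingMap
    (MultilinearMap.alternatization (prodMap fun s => (B s).toMultilinearMap))

theorem PP_apply (B : Fin m → (Fin n → V) [⋀^Fin 2]→ₗ[k] k) (z : M)
    (v : Fin m × Fin 2 → Fin n → V) :
    PP B z v = (∑ τ : Equiv.Perm (Fin m × Fin 2), ((Equiv.Perm.sign τ : ℤ) : k) *
      ∏ l, B l ![v (τ (l, 0)), v (τ (l, 1))]) • z := by
  change (MultilinearMap.alternatization (prodMap fun s => (B s).toMultilinearMap) v) • z = _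
  congr 1
  rw [MultilinearMap.alternatization_apply]
  refine Finset.sum_congr rfl fun σ _ => ?_
  rw [Units.smul_def, zsmul_eq_mul]
  congr 1
  change ∏ s, B s (fun ε => v (σ (s, ε))) = _
  refine Finset.prod_congr rfl fun s _ => ?_
  congr 1
  funext ε
  fin_cases ε <;> rfl

theorem PP_eq {B : Fin m → (Fin n → V) [⋀^Fin 2]→ₗ[k] k} {z : M}
    {g : (Fin n → V) [⋀^Fin m × Fin 2]→ₗ[k] M} (h : IsProduct B z g) : g = PP B z := by
  ext v
  rw [h v, PP_apply]

theorem PP_isProduct (B : Fin m → (Fin n → V) [⋀^Fin 2]→ₗ[k] k) (z : M) :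
    IsProduct B z (PP B z) := fun v => PP_apply B z v

theorem prod_update [DecidableEq (Fin m)] (B : Fin m → (Fin n → V) [⋀^Fin 2]→ₗ[k] k) (a : Fin m)
    (x : (Fin n → V) [⋀^Fin 2]→ₗ[k] k) (w : Fin m → Fin 2 → Fin n → V) :
    ∏ l, (Function.update B a x) l (w l) = x (w a) * ∏ l ∈ Finset.univ.erase a, B l (w l) := by
  rw [← Finset.mul_prod_erase Finset.univ _ (Finset.mem_univ a), Function.update_self]
  congr 1
  refine Finset.prod_congr rfl fun l hl => ?_
  rw [Function.update_of_ne (Finset.ne_of_mem_erase hl)]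

theorem PP_add (B : Fin m → (Fin n → V) [⋀^Fin 2]→ₗ[k] k) (z : M) (a : Fin m)
    (x y : (Fin n → V) [⋀^Fin 2]→ₗ[k] k) :
    PP (Function.update B a (x + y)) z =
      PP (Function.update B a x) z + PP (Function.update B a y) z := by
  ext v
  rw [AlternatingMap.add_apply, PP_apply, PP_apply, PP_apply, ← add_smul, ← Finset.sum_add_distrib]
  congr 1
  refine Finset.sum_congr rfl fun τ _ => ?_
  rw [prod_update, prod_update, prod_update, AlternatingMap.add_apply]
  ring

theorem PP_smul (B : Fin m → (Fin n → V) [⋀^Fin 2]→ₗ[k] k) (z : M) (a : Fin m) (r : k)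
    (x : (Fin n → V) [⋀^Fin 2]→ₗ[k] k) :
    PP (Function.update B a (r • x)) z = r • PP (Function.update B a x) z := by
  ext v
  rw [AlternatingMap.smul_apply, PP_apply, PP_apply, smul_smul, Finset.mul_sum]
  congr 1
  refine Finset.sum_congr rfl fun τ _ => ?_
  rw [prod_update, prod_update, AlternatingMap.smul_apply, smul_eq_mul]
  ring

theorem PP_zadd (B : Fin m → (Fin n → V) [⋀^Fin 2]→ₗ[k] k) (x y : M) :
    PP B (x + y) = PP B x + PP B y := by
  ext v
  rw [AlternatingMap.add_apply, PP_apply, PP_apply, PP_apply, smul_add]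

theorem PP_zsmul (B : Fin m → (Fin n → V) [⋀^Fin 2]→ₗ[k] k) (r : k) (x : M) :
    PP B (r • x) = r • PP B x := by
  ext v
  rw [AlternatingMap.smul_apply, PP_apply, PP_apply, smul_comm]

/-- products of elements of spans -/
theorem PP_mem {X : Set ((Fin n → V) [⋀^Fin 2]→ₗ[k] k)} {Y : Set M}
    {T : Submodule k ((Fin n → V) [⋀^Fin m × Fin 2]→ₗ[k] M)}
    (hT : ∀ (B : Fin m → (Fin n → V) [⋀^Fin 2]→ₗ[k] k) (z : M), (∀ l, B l ∈ X) → z ∈ Y →
      PP B z ∈ T) (B : Fin m → (Fin n → V) [⋀^Fin 2]→ₗ[k] k) (z : M)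
    (hB : ∀ l, B l ∈ Submodule.span k X) (hz : z ∈ Submodule.span k Y) : PP B z ∈ T := by
  classical
  have h1 : ∀ (B : Fin m → (Fin n → V) [⋀^Fin 2]→ₗ[k] k), (∀ l, B l ∈ X) → PP B z ∈ T := by
    intro B hB
    induction hz using Submodule.span_induction with
    | mem z hz => exact hT B z hB hz
    | zero =>
      have h0 : PP (M := M) B 0 = 0 := by
        ext v
        rw [PP_apply, smul_zero]
        rfl
      rw [h0]
      exact T.zero_mem
    | add x y _ _ hx hy => rw [PP_zadd]; exact T.add_mem hx hy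
    | smul r x _ hx => rw [PP_zsmul]; exact T.smul_mem r hx
  have h2 : ∀ (S : Finset (Fin m)) (B : Fin m → (Fin n → V) [⋀^Fin 2]→ₗ[k] k),
      (∀ l ∈ S, B l ∈ Submodule.span k X) → (∀ l ∉ S, B l ∈ X) → PP B z ∈ T := by
    intro S
    induction S using Finset.induction_on with
    | empty => exact fun B _ h => h1 B fun l => h l (Finset.notMem_empty l)
    | insert a S ha ih =>
      intro B hB1 hB2
      have h3 : ∀ x ∈ Submodule.span k X, PP (Function.update B a x) z ∈ T := by
        intro x hx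
        induction hx using Submodule.span_induction with
        | mem x hx =>
          refine ih _ (fun l hl => ?_) (fun l hl => ?_)
          · rw [Function.update_of_ne (fun h => ha (by rw [← h]; exact hl))]
            exact hB1 l (Finset.mem_insert_of_mem hl)
          · by_cases hla : l = a
            · subst hla
              rw [Function.update_self]
              exact hx
            · rw [Function.update_of_ne hla]
              exact hB2 l fun h => (Finset.mem_insert.1 h).elim hla hl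
        | zero =>
          have h0 := PP_smul B z a 0 0
          rw [smul_zero, zero_smul] at h0
          rw [h0]
          exact T.zero_mem
        | add x y _ _ hx hy => rw [PP_add]; exact T.add_mem hx hy
        | smul r x _ hx => rw [PP_smul]; exact T.smul_mem r hx
      have h4 := h3 (B a) (hB1 a (Finset.mem_insert_self a S))
      rwa [Function.update_eq_self] at h4
  exact h2 Finset.univ B (fun l _ => hB l) fun l hl => absurd (Finset.mem_univ l) hl

end prod

section form

variable {k V M V₀ M₀ : Type} [Field k] [AddCommGroup V] [Module k V] [AddCommGroup M] [Module k M]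
  [AddCommGroup V₀] [Module ℚ V₀] [AddCommGroup M₀] [Module ℚ M₀]

theorem PP_extends {c : V₀ →+ V} {e : M₀ →+ M} {n m : ℕ}
    {B₀ : Fin m → (Fin n → V₀) [⋀^Fin 2]→ₗ[ℚ] ℚ} {B : Fin m → (Fin n → V) [⋀^Fin 2]→ₗ[k] k}
    (i : ℚ →+* k) (hB : ∀ l, Extends c i.toAddMonoidHom (B₀ l) (B l)) (z₀ : M₀) :
    Extends c e (PP B₀ z₀) (PP B (e z₀)) := by
  have : CharZero k := charZero_of_injective_ringHom i.injective
  intro v
  rw [PP_apply, PP_apply]
  have h1 : ∀ l a b, B l ![(fun j => c (v a j)), (fun j => c (v b j))] =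
      ((B₀ l ![v a, v b] : ℚ) : k) := by
    intro l a b
    have h2 := hB l ![v a, v b]
    have h3 : (fun (j : Fin 2) (t : Fin n) => c ((![v a, v b] : Fin 2 → Fin n → V₀) j t)) =
        ![(fun j => c (v a j)), (fun j => c (v b j))] := by
      funext j t
      fin_cases j <;> rfl
    rw [h3] at h2
    rw [h2]
    exact map_ratCast i _
  have h4 : (∑ τ : Equiv.Perm (Fin m × Fin 2), ((Equiv.Perm.sign τ : ℤ) : k) *
      ∏ l, B l ![(fun j => c (v (τ (l, 0)) j)), (fun j => c (v (τ (l, 1)) j))]) =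
      (((∑ τ : Equiv.Perm (Fin m × Fin 2), ((Equiv.Perm.sign τ : ℤ) : ℚ) *
        ∏ l, B₀ l ![v (τ (l, 0)), v (τ (l, 1))]) : ℚ) : k) := by
    simp only [h1]
    push_cast
    rfl
  rw [h4]
  have h5 := map_ratCast_smul e ℚ k (∑ τ : Equiv.Perm (Fin m × Fin 2),
    ((Equiv.Perm.sign τ : ℤ) : ℚ) * ∏ l, B₀ l ![v (τ (l, 0)), v (τ (l, 1))]) z₀
  rw [Rat.cast_id] at h5
  exact h5.symm

end form

end Pool.Agent.U442.Gro
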