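import Pool.Agent.U442.Gro.Sel
import Pool.Agent.U442.Htj.EP

/-!
Everything which is unramified outside of a finite set of places is allowed and tame.
-/

set_option autoImplicit false

namespace Pool.Agent.U442.Gro

open NumberField IsDedekindDomain Polynomial
open Pool.Agent.U442.Htj (TrivialModTwo TameT)
open Pool.Agent.U442.Htj.EP (AbsoluteGaloisGroup)

theorem mem_of_fixed {L F : Type} [Field L] [Field F] [Algebra L F] [IsGalois L F]
    {k : Type} [Field k] [Algebra k F] (E : IntermediateField k F)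
    (hE : ∀ x : L, algebraMap L F x ∈ E) (δ : F)
    (h : ∀ s : F ≃ₐ[L] F, (∀ x ∈ E, s x = x) → s δ = δ) : δ ∈ E := by
  let E' : IntermediateField L F := { E.toSubfield with algebraMap_mem' := hE }
  have h1 : δ ∈ IntermediateField.fixedField E'.fixingSubgroup := by
    rw [IntermediateField.mem_fixedField_iff]
    intro s hs
    apply h s
    intro x hx
    exact (IntermediateField.mem_fixingSubgroup_iff E' s).1 hs x hx
  rw [InfiniteGalois.fixedField_fixingSubgroup] at h1
  exact h1

variable {K : Type} [Field K] [NumberField K] {L : Type} [Field L] [NumberField L] [Algebra K L]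

theorem allowed_tame {S : Set (HeightOneSpectrum (𝓞 K))} {U : Finset Kˣ}
    (hU : ∀ (E : Type) [Field E] [NumberField E] [Algebra K E],
      UnramifiedOutside S E → ∀ c : Kˣ, (∃ δ : E, δ ^ 2 = algebraMap K E c) →
        ∃ u ∈ U, IsSquare (c * u))
    (E : IntermediateField K (AlgebraicClosure L)) [NumberField E] (hn : Normal K E)
    (hL : ∀ x : L, algebraMap L (AlgebraicClosure L) x ∈ E) (hE : UnramifiedOutside S E)
    {ι : Type} (f : ι → K[X]) {d : ℕ}
    (t : AbsoluteGaloisGroup L →* Matrix (Fin d) (Fin d) ℤ_[2])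
    (ht : ∀ s : AbsoluteGaloisGroup L, (∀ x ∈ E, s x = x) → TrivialModTwo t s) :
    Pool.Agent.N197.Htj.Allowed L (AlgebraicClosure L) U f ∧ TameT (k := K) U t := by
  have key : ∀ c : Kˣ, (∃ δ ∈ E, δ ^ 2 = algebraMap K (AlgebraicClosure L) c) →
      ∃ u ∈ U, IsSquare (c * u) := by
    rintro c ⟨δ, h1, h2⟩
    exact hU E hE c ⟨⟨δ, h1⟩, Subtype.ext h2⟩
  refine ⟨Or.inr ⟨E, hn, fun x _ => hL x, Or.inr key⟩, Or.inr fun c hc => ?_⟩
  obtain ⟨δ, hδ⟩ := IsAlgClosed.exists_pow_nat_eq (algebraMap K (AlgebraicClosure L) c)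
    (n := 2) (by norm_num)
  exact key c ⟨δ, mem_of_fixed (L := L) E hL δ fun s hs => hc δ hδ s (ht s hs), hδ⟩

end Pool.Agent.U442.Gro
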