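import Pool.Agent.H437R2.Man.MWSel

/-!
Square classes which become squares in an extension unramified outside of a finite set of places.
-/

set_option autoImplicit false
set_option linter.unusedSectionVars false

namespace Pool.Agent.U442.Gro

open NumberField IsDedekindDomain

variable {K : Type} [Field K] [NumberField K]

/-- The extension `E` of `K` is unramified at the finite places outside of `S`. -/
def UnramifiedOutside (S : Set (HeightOneSpectrum (𝓞 K))) (E : Type) [Field E] [NumberField E]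
    [Algebra K E] : Prop :=
  ∀ v : HeightOneSpectrum (𝓞 K), v ∉ S → ∀ P : HeightOneSpectrum (𝓞 E),
    P.asIdeal.LiesOver v.asIdeal → v.asIdeal.ramificationIdx' P.asIdeal = 1

theorem exists_over (v : HeightOneSpectrum (𝓞 K)) (E : Type) [Field E] [NumberField E]
    [Algebra K E] : ∃ P : HeightOneSpectrum (𝓞 E), P.asIdeal.LiesOver v.asIdeal := by
  have hp := v.isPrime
  obtain ⟨Q, hQ, hQ2⟩ := Ideal.exists_ideal_over_prime_of_isIntegral_of_isDomain
    (S := 𝓞 E) v.asIdeal (by
      rw [(RingHom.injective_iff_ker_eq_bot _).1 (FaithfulSMul.algebraMap_injective (𝓞 K) (𝓞 E))]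
      exact bot_le)
  refine ⟨⟨Q, hQ, ?_⟩, ⟨hQ2.symm⟩⟩
  rintro rfl
  apply v.ne_bot
  rw [← hQ2]
  exact (RingHom.injective_iff_ker_eq_bot _).1 (FaithfulSMul.algebraMap_injective (𝓞 K) (𝓞 E))

theorem even_of_sq {S : Set (HeightOneSpectrum (𝓞 K))} {E : Type} [Field E] [NumberField E]
    [Algebra K E] (hE : UnramifiedOutside S E) (c : Kˣ) (δ : E) (hδ : δ ^ 2 = algebraMap K E c)
    (v : HeightOneSpectrum (𝓞 K)) (hv : v ∉ S) :
    Even (Multiplicative.toAdd (v.valuationOfNeZero c)) := by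
  obtain ⟨P, hP⟩ := exists_over v E
  have h1 := hE v hv P hP
  have h2 := HeightOneSpectrum.valuation_liesOver (A := 𝓞 K) (B := 𝓞 E) (K := K) E v P (c : K)
  rw [h1, pow_one, ← hδ, map_pow] at h2
  have hδ0 : δ ≠ 0 := by
    rintro rfl
    rw [zero_pow two_ne_zero] at hδ
    exact (map_ne_zero _).2 c.ne_zero hδ.symm
  have h3 := P.valuationOfNeZero_eq (Units.mk0 δ hδ0)
  have h4 := v.valuationOfNeZero_eq c
  rw [Units.val_mk0] at h3
  rw [← h3, ← h4, ← WithZero.coe_pow] at h2
  have h5 := WithZero.coe_injective h2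
  refine ⟨Multiplicative.toAdd (P.valuationOfNeZero (Units.mk0 δ hδ0)), ?_⟩
  rw [h5, toAdd_pow]
  ring

/-- The square classes which become squares in extensions unramified outside of `S`. -/
theorem exists_U (S : Set (HeightOneSpectrum (𝓞 K))) (hS : S.Finite) :
    ∃ U : Finset Kˣ, ∀ (E : Type) [Field E] [NumberField E] [Algebra K E],
      UnramifiedOutside S E → ∀ c : Kˣ, (∃ δ : E, δ ^ 2 = algebraMap K E c) →
        ∃ u ∈ U, IsSquare (c * u) := by
  classical
  obtain ⟨T, hT0, hT⟩ := Pool.Agent.H437R2.Man.MW.sel_finite (K := K) S hS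
  refine ⟨T.attach.image fun t => Units.mk0 t.1 (hT0 t.1 t.2), fun E _ _ _ hE c hc => ?_⟩
  obtain ⟨δ, hδ⟩ := hc
  obtain ⟨t, ht, b, hb, e⟩ := hT c fun v hv => even_of_sq hE c δ hδ v hv
  refine ⟨Units.mk0 t (hT0 t ht), Finset.mem_image.2 ⟨⟨t, ht⟩, Finset.mem_attach _ _, rfl⟩, ?_⟩
  refine ⟨Units.mk0 (t * b) (mul_ne_zero (hT0 t ht) hb), ?_⟩
  ext
  push_cast
  rw [e]
  simp only [Units.val_mk0]
  ring

end Pool.Agent.U442.Gro
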